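import Pool.Agent.H78.Loc.Cohen

/-!
# A nontrivial complete subforcing of localization forcing adding no Cohen real (MP_339868_lc)

Negative answer to Q1: the regular open algebra of localization forcing has a complete Boolean
subalgebra without atoms (so its generic extension is always a proper extension of the ground
model) such that no nonzero element of the subalgebra admits a name for a Cohen real.

The definitions (`LOC` and its order, `IsRegOpen`, `rocompl`, `rosup`, `CompleteSubalgebra`,
`CompleteSubalgebra.Atomless`, `IsCohenName`) are in `Pool/Agent/H78/Loc/Defs.lean`.
-/

namespace Pool.Agent.Results.MP_339868_lc.NoCohenSubforcing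

open Pool.Agent.H78.Loc

/-- There is a complete Boolean subalgebra of the regular open algebra of localization forcing
which has no atoms and adds no Cohen real below any of its nonzero elements. -/
theorem result : ∃ B : CompleteSubalgebra LOC, B.Atomless ∧
    ∀ U ∈ B.carrier, U.Nonempty → ∀ τ : List Bool → Set LOC, ¬ IsCohenName B U τ := by
  obtain ⟨D⟩ := exists_rdata
  exact ⟨D.alg, D.atomless, fun U hU hne τ => D.no_cohen U hU hne τ⟩

end Pool.Agent.Results.MP_339868_lc.NoCohenSubforcing
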